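import Pool.Agent.H94.CB.H14.PP.Metric_1
import Pool.Agent.H94.CB.M64
import Pool.Agent.H94.CB.M66
import Pool.Agent.H94.CB.M74
import Pool.Agent.H94.CB.M77

/-!
# Kobayashi hyperbolicity modulo the curve: the nodal case for open surfaces
-/

open Topology Filter Metric

noncomputable section

namespace Pool.Agent.H14.KB

attribute [-instance] ProperSMul.toContinuousSMul

open Pool.Agent Pool.Agent.H17BP
open Pool.Agent.H17 (PN HolomorphicInto)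
open Pool.Agent.H36.BP
open Pool.Agent.H36.BPL
open Pool.Agent.H14.PP (IsCone IsOpenPart IsNodal Chart HasType DType gD aCoef Form IsEq)

/-- The metric theorem for open surfaces in `ℙ(V)`. -/
theorem nodalK_metric {V : Type} [NormedAddCommGroup V] [NormedSpace ℂ V] {N : ℕ} (L : V ≃L[ℂ] EN N)
    {W : Type} [NormedAddCommGroup W] [InnerProductSpace ℂ W] {X K T : Set V} {m j M : ℕ}
    {Ω : V → V → V → ℂ} {Q : V → W} {D : ℕ} {Φ : V → Fin M → ℂ} (hX : Surface X) (hK : OpenPart X K)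
    (hΦ : AffProper X K Φ) (hKT : ∀ x ∈ X, x ∉ K → x ∈ T) (hQ : ∀ x, AnalyticAt ℂ Q x)
    (hQs : ∀ (c : ℂ) (x : V), Q (c • x) = c ^ D • Q x) (hT : ∀ x, x ∈ T ↔ x ∈ X ∧ Q x = 0)
    (hn : ∀ x ∈ T, PairNodalAt X K T x) (hm : 1 ≤ m) (hj : 1 ≤ j) (hΩ : IsForm K m j Ω)
    (hz : NoZeros K T Ω) (hpl : PoleLE X K (m - 1) Ω) :
    IsEq (L.symm ⁻¹' X : Set (EN N)) (L.symm ⁻¹' T) (fun y => Q (L.symm y)) D ∧
    ∃ (M' : ℕ) (c₀ C : ℝ) (G : EN N → EN N → ℝ), MetricData (L.symm ⁻¹' K : Set (EN N))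
      ((L.symm ⁻¹' K : Set (EN N)) ∩ L.symm ⁻¹' T) G
      (Pool.Agent.H14.PP.rho (fun y => Q (L.symm y)) D) M' c₀ C := by
  set X' : Set (EN N) := L.symm ⁻¹' X with hX'
  set K' : Set (EN N) := L.symm ⁻¹' K with hK'
  set T' : Set (EN N) := L.symm ⁻¹' T with hT'
  have hTs : ∀ x ∈ T, ∀ c : ℂ, c ≠ 0 → c • x ∈ T := by
    intro x hx c hc
    obtain ⟨h1, h2⟩ := (hT x).mp hx
    exact (hT _).mpr ⟨hX.smul x h1 c hc, by rw [hQs, h2, smul_zero]⟩
  have hTX : T ⊆ X := fun x hx => ((hT x).mp hx).1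
  have hcone : IsCone X' := isCone_transport L hX
  have hT's : ∀ x ∈ T', ∀ c : ℂ, c ≠ 0 → c • x ∈ T' := by
    intro x hx c hc
    show L.symm (c • x) ∈ T
    rw [map_smul]
    exact hTs _ hx c hc
  have hK's : ∀ x ∈ K', ∀ c : ℂ, c ≠ 0 → c • x ∈ K' := by
    intro x hx c hc
    show L.symm (c • x) ∈ K
    rw [map_smul]
    exact hK.smul _ hx c hc
  have hopen : IsOpenPart X' K' := ⟨fun x hx => hK.sub hx, hK's, fun x hx => (L.symm.continuous.tendsto x).eventually (hK.rel _ hx)⟩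
  have hnodal : IsNodal X' K' T' := by
    intro x hx
    have hxT : L.symm x ∈ T := hx
    obtain ⟨σ, τ, hc, h0, nd, d, hnd, hd, hdn⟩ := hn (L.symm x) hxT
    have hg := germ_transport L hc
    have hLσ0 : L (σ 0) = x := by rw [h0, L.apply_symm_apply]
    have hnd' : ∀ᶠ p in 𝓝 (0 : ℂ × ℂ), (L (σ p) ∈ T' ↔ p.1 = 0 ∨ (nd = true ∧ p.2 = 0)) := by
      filter_upwards [hnd] with p hp
      rw [← hp]
      show L.symm (L (σ p)) ∈ T ↔ _
      rw [L.symm_apply_apply]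
    have hd' : ∀ᶠ p in 𝓝 (0 : ℂ × ℂ), (L (σ p) ∉ K' ↔ (d.1 = true ∧ p.1 = 0) ∨ (d.2 = true ∧ p.2 = 0)) := by
      filter_upwards [hd] with p hp
      rw [← hp]
      show L.symm (L (σ p)) ∉ K ↔ _
      rw [L.symm_apply_apply]
    obtain ⟨χ, h2, h3, h4, h5⟩ := exists_chart hcone hK's hT's hg hnd' hd'
    refine ⟨χ, nd, d, ?_, ?_, h4, h5, hdn⟩
    · rwa [hLσ0] at h2
    · rwa [hLσ0] at h3
  have heq : IsEq X' T' (fun y => Q (L.symm y)) D := by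
    refine ⟨fun x => (hQ _).comp ((L.symm : EN N →L[ℂ] V).analyticAt x), fun c x => ?_, fun x => ?_⟩
    · show Q (L.symm (c • x)) = _
      rw [map_smul, hQs]
    · exact hT (L.symm x)
  have hnz : (formT L hΩ).NoZeroOff T' := by
    intro x hx hxT v w hv hw hli
    refine hz (L.symm x) hx hxT _ (tan_transport L hv) _ (tan_transport L hw) ?_
    have h1 := hli.map' ((L.symm : EN N →L[ℂ] V) : EN N →ₗ[ℂ] V) (LinearMap.ker_eq_bot.mpr L.symm.injective)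
    have h2 : (((L.symm : EN N →L[ℂ] V) : EN N →ₗ[ℂ] V) ∘ ![x, v, w]) = ![L.symm x, L.symm v, L.symm w] := by
      funext i
      fin_cases i <;> rfl
    rw [h2] at h1
    exact h1
  have hpole : (formT L hΩ).PoleBound X' := poleBound_transport L hΩ hpl
  have hclX : ∀ x ∈ closure X', x ≠ 0 → x ∈ X' := fun x hx hx0 =>
    (hcone.closed.closure_subset_iff.mpr (Set.subset_insert 0 X') hx).resolve_left hx0
  exact ⟨heq, Pool.Agent.H14.PP.exists_metric hcone hopen (fun x hx hxn => hKT _ hx hxn) heq hnodal hm hj (formT L hΩ) hnz hpole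
    (hur_of_affProper (fun x hx hx0 => hclX x (closure_mono hopen.subset hx) hx0) hK's (affProper_transport L hΦ))⟩

/-- **Kobayashi hyperbolicity modulo the curve in the nodal case for open surfaces.** -/
theorem nodalK_kob {V : Type} [NormedAddCommGroup V] [NormedSpace ℂ V] [FiniteDimensional ℂ V]
    {X K B : Set V} {m j : ℕ} {Ω : V → V → V → ℂ} {κ : Type} [Fintype κ] {Q : κ → V → ℂ} {D : ℕ}
    (h : ModelK X K B m j Ω Q D) (hn : ∀ x ∈ X, NodalAt X B x) : Kob K Q D := by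
  classical
  have hKX := h.opn.sub
  have hKs := h.opn.smul
  -- the trivial case
  by_cases hXe : ∃ x₀, x₀ ∈ X
  swap
  · refine ⟨1, 0, le_rfl, le_rfl, fun f F hf _ _ _ => ?_⟩
    exact absurd ⟨f 0, hKX (hf 0 (by simp)).2⟩ hXe
  obtain ⟨x₀, hx₀⟩ := hXe
  have hXs := h.surf.smul
  have hne : ∀ x ∈ X, x ≠ 0 := fun x hx e => h.surf.zero (e ▸ hx)
  have hBs := h.eqs.cone h.surf.smul
  have hpos : 0 < Module.finrank ℂ V :=
    Module.finrank_pos_iff_exists_ne_zero.mpr ⟨x₀, hne x₀ hx₀⟩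
  obtain ⟨N, hN⟩ : ∃ N, Module.finrank ℂ V = N + 1 := ⟨Module.finrank ℂ V - 1, by omega⟩
  let L : V ≃L[ℂ] EN N := ContinuousLinearEquiv.ofFinrankEq (by rw [hN]; simp)
  obtain ⟨MΦ, Φ, hΦ⟩ := h.aff
  obtain ⟨heq, M, c₀, C, G, hM⟩ := nodalK_metric L (Q := Nodal_Q Q) (D := D) h.surf h.opn hΦ h.sub (fun x => by
    have h1 : AnalyticAt ℂ (fun x : V => fun i => Q i x) x := by
      rw [analyticAt_pi_iff]
      exact fun i => h.eqs.an i x
    exact AnalyticAt.comp (g := (WithLp.toLp 2 : (κ → ℂ) → EuclideanSpace ℂ κ))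
      (f := fun x : V => fun i => Q i x) ((EuclideanSpace.equiv κ ℂ).symm.analyticAt _) h1)
    (fun c x => by
      unfold Nodal_Q
      rw [← WithLp.toLp_smul]
      congr 1
      funext i
      simp [h.eqs.smul]) (T := B) (fun x => by
      rw [h.eqs.mem_iff]
      unfold Nodal_Q
      constructor
      · rintro ⟨h1, h2⟩
        refine ⟨h1, ?_⟩
        have h3 : (fun i => Q i x) = (0 : κ → ℂ) := funext h2
        rw [h3]
        rfl
      · rintro ⟨h1, h2⟩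
        refine ⟨h1, fun i => ?_⟩
        have h3 := congrFun (congrArg WithLp.ofLp h2) i
        exact h3) (fun x hx => pairNodal_of_nodal h.opn h.sub (h.eqs.sub hx) hx (hn x (h.eqs.sub hx)))
      h.one_m h.one_j h.form h.noZeros h.pole
  have hcone : Pool.Agent.H14.PP.IsCone (L.symm ⁻¹' X : Set (EN N)) := isCone_transport L h.surf
  have hT's : ∀ x ∈ (L.symm ⁻¹' B : Set (EN N)), ∀ c : ℂ, c ≠ 0 → c • x ∈ (L.symm ⁻¹' B : Set (EN N)) := by
    intro x hx c hc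
    show L.symm (c • x) ∈ B
    rw [map_smul]
    exact hBs _ hx c hc
  have hK's : ∀ x ∈ (L.symm ⁻¹' K : Set (EN N)), ∀ c : ℂ, c ≠ 0 → c • x ∈ (L.symm ⁻¹' K : Set (EN N)) := by
    intro x hx c hc
    show L.symm (c • x) ∈ K
    rw [map_smul]
    exact hKs _ hx c hc
  have hK'0 : (0 : EN N) ∉ (L.symm ⁻¹' K : Set (EN N)) := fun h0 => hcone.zero_notMem (hKX h0)
  have e1 : coneOf (ptsOf (L.symm ⁻¹' K : Set (EN N))) = L.symm ⁻¹' K :=
    coneOf_ptsOf hK'0 hK's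
  have e2 : coneOf (ptsOf ((L.symm ⁻¹' K : Set (EN N)) ∩ L.symm ⁻¹' B)) =
      (L.symm ⁻¹' K : Set (EN N)) ∩ L.symm ⁻¹' B :=
    coneOf_ptsOf (fun h0 => hK'0 h0.1)
      (fun x hx c hc => ⟨hK's x hx.1 c hc, hT's x hx.2 c hc⟩)
  obtain ⟨K₁, hK₁, hK₁b⟩ := Pool.Agent.H14.PP.exists_rho_bound hcone heq
  have hM2 : MetricData (coneOf (ptsOf (L.symm ⁻¹' K : Set (EN N))))
      (coneOf (ptsOf ((L.symm ⁻¹' K : Set (EN N)) ∩ L.symm ⁻¹' B))) G
      (Pool.Agent.H14.PP.rho (fun y => Nodal_Q Q (L.symm y)) D) M c₀ C := by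
    rw [e1, e2]
    exact hM
  have hbm : BrodyMod2 (L.symm ⁻¹' K : Set (EN N)) ((L.symm ⁻¹' K : Set (EN N)) ∩ L.symm ⁻¹' B) := by
    intro F hF hFK hne' hord z
    refine ⟨hFK z, ?_⟩
    by_contra hzB
    have hall := h.brody (fun z => L.symm (F z)) (fun z => by
      refine ⟨fun z => L.symm (F z), ((L.symm : EN N →L[ℂ] V).analyticAt _).comp (hF.analyticAt z), ?_,
        Filter.Eventually.of_forall fun w => Pr.refl _⟩
      exact hne _ (hKX (hFK z))) hFK (hord.equiv L.symm) ⟨z, hzB⟩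
    obtain ⟨a, b, hab⟩ := hne'
    obtain ⟨c, hc, e⟩ := hall a b
    refine hab c (L.symm.injective ?_)
    rw [map_smul]
    exact e
  obtain ⟨L₁, hL₁, hkob⟩ := kobayashi_of_bound hM2 (by
    rw [e1]
    exact brody_bound2 hM hbm)
  set A : ℝ := ‖(L : V →L[ℂ] EN N)‖ with hA
  set A' : ℝ := ‖(L.symm : EN N →L[ℂ] V)‖ with hA'
  have hA0 : 0 ≤ A := norm_nonneg _
  have hA'0 : 0 ≤ A' := norm_nonneg _
  -- comparison of the sizes
  have hρ : ∀ x ∈ X, rhoS Q D x ≤ A ^ D *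
      Pool.Agent.H14.PP.rho (fun y => Nodal_Q Q (L.symm y)) D (L x) := by
    intro x hx
    have hx0 : 0 < ‖x‖ := norm_pos_iff.mpr (hne x hx)
    have hLx0 : 0 < ‖L x‖ := norm_pos_iff.mpr fun h0 => hne x hx (L.map_eq_zero_iff.mp h0)
    unfold rhoS Pool.Agent.H14.PP.rho
    simp only
    rw [L.symm_apply_apply, ← mul_div_assoc, div_le_div_iff₀ (by positivity) (by positivity)]
    have h1 : ‖fun i => Q i x‖ ≤ ‖Nodal_Q Q x‖ := by
      refine (pi_norm_le_iff_of_nonneg (norm_nonneg _)).mpr fun i => ?_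
      exact PiLp.norm_apply_le (Nodal_Q Q x) i
    have h2 : ‖L x‖ ≤ A * ‖x‖ := (L : V →L[ℂ] EN N).le_opNorm x
    calc ‖fun i => Q i x‖ * ‖L x‖ ^ D ≤ ‖Nodal_Q Q x‖ * (A * ‖x‖) ^ D := by gcongr
      _ = A ^ D * ‖Nodal_Q Q x‖ * ‖x‖ ^ D := by rw [mul_pow]; ring
  have hρ2 : ∀ x ∈ X, rhoS Q D x ≤ A ^ D * K₁ := by
    intro x hx
    refine (hρ x hx).trans (mul_le_mul_of_nonneg_left (hK₁b _ ?_) (by positivity))
    show L.symm (L x) ∈ X
    rwa [L.symm_apply_apply]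
  refine ⟨M + 1, A ^ D * K₁ * ((A ^ D) ^ M * (A' * (L₁ * A))), by omega, by positivity,
    fun f F hf hF hF0 hfF => ?_⟩
  have hf0 := (hf 0 (by simp)).2
  have hFX : F 0 ∈ X := (Pr.mem_iff hXs hfF.self_of_nhds).1 (hKX hf0)
  have hx1 : (L x₀).ofLp ≠ 0 := ofLp_ne_zero fun h0 => hne x₀ hx₀ (L.map_eq_zero_iff.mp h0)
  set p : ℂ → PN N := fun z => ptN (L x₀).ofLp hx1 (L (f z)).ofLp with hp
  have hLne : ∀ y : V, y ≠ 0 → (L y).ofLp ≠ 0 := fun y hy =>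
    ofLp_ne_zero fun h0 => hy (L.map_eq_zero_iff.mp h0)
  have hLpr : ∀ {y y' : V}, Pr y y' → Pr (L y).ofLp (L y').ofLp := by
    rintro y y' ⟨c, hc, rfl⟩
    exact ⟨c, hc, by rw [map_smul]; rfl⟩
  have hpoint : ∀ {z : ℂ} {y : V} (hy : y ≠ 0), Pr (f z) y →
      p z = Projectivization.mk ℂ (L y).ofLp (hLne y hy) := fun hy h1 =>
    ptN_eq _ _ _ (hLpr h1)
  have h1 := hkob p (fun z => L (F z)) (by
    intro z₀ hz₀
    rw [mem_ball_zero_iff] at hz₀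
    obtain ⟨Φ, hΦ, hΦ0, he⟩ := (hf z₀ hz₀).1
    refine ⟨fun z => (L (Φ z)).ofLp, analyticAt_ofLp (((L : V →L[ℂ] EN N).analyticAt _).comp hΦ), ?_⟩
    filter_upwards [he, hΦ.continuousAt.eventually_ne hΦ0] with z h2 h3
    exact ⟨hLne _ h3, hpoint h3 h2⟩) (by
    intro z hz
    rw [mem_ball_zero_iff] at hz
    have h2 := (hf z hz).2
    have h2X := hKX h2
    show L.symm (WithLp.toLp 2 (p z).rep) ∈ K
    rw [hpoint (hne _ h2X) ⟨1, one_ne_zero, (one_smul _ _).symm⟩]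
    obtain ⟨a, ha, h4⟩ := rep_mk (V := Fin (N + 1) → ℂ) (hLne _ (hne _ h2X))
    rw [h4, WithLp.toLp_smul, WithLp.toLp_ofLp, map_smul, L.symm_apply_apply]
    exact hKs _ h2 a ha) (((L : V →L[ℂ] EN N).analyticAt _).comp hF) (by
    filter_upwards [hfF, hF.continuousAt.eventually_ne hF0] with z h2 h3
    exact ⟨hLne _ h3, hpoint h3 h2⟩)
  have hd : deriv (fun z => L (F z)) 0 = L (deriv F 0) := by
    have h2 : HasDerivAt (fun z => L (F z)) (L (deriv F 0)) 0 :=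
      (L : V →L[ℂ] EN N).hasFDerivAt.comp_hasDerivAt 0 hF.differentiableAt.hasDerivAt
    exact h2.deriv
  rw [hd] at h1
  have hLF0 : L (F 0) ≠ 0 := fun h0 => hF0 (L.map_eq_zero_iff.mp h0)
  rw [Pool.Agent.H14.PP.fs_eq hLF0] at h1
  set a : ℂ := inner ℂ (L (F 0)) (L (deriv F 0)) / (‖L (F 0)‖ : ℂ) ^ 2 with ha
  refine ⟨a, ?_⟩
  have hLFn : 0 < ‖L (F 0)‖ := norm_pos_iff.mpr hLF0
  have h2 : L (deriv F 0) - a • L (F 0) = L (deriv F 0 - a • F 0) := by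
    rw [map_sub, map_smul]
  rw [h2, ← mul_div_assoc, div_le_iff₀ hLFn] at h1
  have h3 : ‖deriv F 0 - a • F 0‖ ≤ A' * ‖L (deriv F 0 - a • F 0)‖ := by
    have := (L.symm : EN N →L[ℂ] V).le_opNorm (L (deriv F 0 - a • F 0))
    have e : (L.symm : EN N →L[ℂ] V) (L (deriv F 0 - a • F 0)) = deriv F 0 - a • F 0 :=
      L.symm_apply_apply _
    rwa [e] at this
  have h4 : ‖L (F 0)‖ ≤ A * ‖F 0‖ := (L : V →L[ℂ] EN N).le_opNorm _
  set ρ₀ := Pool.Agent.H14.PP.rho (fun y => Nodal_Q Q (L.symm y)) D (L (F 0)) with hρ₀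
  have hρ₀0 : 0 ≤ ρ₀ := Pool.Agent.H14.PP.rho_nonneg _ _ _
  have h5 := hρ _ hFX
  have h6 := hρ2 _ hFX
  have h7 := rhoS_nonneg Q D (F 0)
  calc rhoS Q D (F 0) ^ (M + 1) * ‖deriv F 0 - a • F 0‖
      = rhoS Q D (F 0) * (rhoS Q D (F 0) ^ M * ‖deriv F 0 - a • F 0‖) := by rw [pow_succ]; ring
    _ ≤ A ^ D * K₁ * ((A ^ D * ρ₀) ^ M * (A' * ‖L (deriv F 0 - a • F 0)‖)) := by gcongr
    _ = A ^ D * K₁ * ((A ^ D) ^ M * (A' * (ρ₀ ^ M * ‖L (deriv F 0 - a • F 0)‖))) := by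
        rw [mul_pow]; ring
    _ ≤ A ^ D * K₁ * ((A ^ D) ^ M * (A' * (L₁ * ‖L (F 0)‖))) := by gcongr
    _ ≤ A ^ D * K₁ * ((A ^ D) ^ M * (A' * (L₁ * (A * ‖F 0‖)))) := by gcongr
    _ = A ^ D * K₁ * ((A ^ D) ^ M * (A' * (L₁ * A))) * ‖F 0‖ := by ring

end Pool.Agent.H14.KB
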