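import Pool.Agent.H94.CB.M07

/-!
# Pseudo Brody hyperbolic surfaces are Kobayashi hyperbolic modulo a proper closed subset
-/

open Topology Filter MvPolynomial Metric

noncomputable section

namespace Pool.Agent.H14.KB

open Pool.Agent
open Pool.Agent.H17 (PN VanishesAt ZariskiClosedIn HolomorphicInto puncturedDisc PseudoBrodyHyperbolic PseudoPicardHyperbolic)

variable {N : ℕ} {P : Ideal (MvPolynomial (Fin (N + 1)) ℂ)}

/-- `X` is Kobayashi hyperbolic modulo the set of the zeros of `Q`, a form of degree `D`: for every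
holomorphic map `f` from the unit disc to `X`, with a lift `F` near `0`, the length of the derivative
of `f` at `0` with respect to the Fubini–Study metric (that is, the distance of `F' 0` from the line
through `F 0`, divided by the norm of `F 0`), multiplied by a power of `|Q (F 0)| / |F 0| ^ D`, is at
most `C`. -/
def KobayashiHyperbolicModulo (X : Set (PN N)) (Q : MvPolynomial (Fin (N + 1)) ℂ) (D : ℕ) : Prop :=
  ∃ (M : ℕ) (C : ℝ), ∀ (f : ℂ → PN N) (F : ℂ → Fin (N + 1) → ℂ), HolomorphicInto f (ball 0 1) →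
    (∀ z ∈ ball (0 : ℂ) 1, f z ∈ X) → AnalyticAt ℂ F 0 →
    (∀ᶠ z in 𝓝 (0 : ℂ), ∃ h : F z ≠ 0, f z = Projectivization.mk ℂ (F z) h) →
    ∃ a : ℂ, (‖eval (F 0) Q‖ / ‖F 0‖ ^ D) ^ M * ‖deriv F 0 - a • F 0‖ ≤ C * ‖F 0‖

/-- `X` is Kobayashi hyperbolic modulo a proper Zariski closed subset. -/
def PseudoKobayashiHyperbolic (X : Set (PN N)) : Prop :=
  ∃ (Q : MvPolynomial (Fin (N + 1)) ℂ) (D : ℕ), Q.IsHomogeneous D ∧ (∃ x ∈ X, ¬ VanishesAt Q x) ∧
    KobayashiHyperbolicModulo X Q D

end Pool.Agent.H14.KB
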